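import Pool.Agent.MP_40fdec_lc.Oracle

set_option autoImplicit false

namespace Pool.Agent.MP_40fdec_lc

open Nat.Partrec (Code)

/-- Characteristic function. -/
noncomputable def chi (X : Set ℕ) (n : ℕ) : ℕ := X.indicator (fun _ => (1 : ℕ)) n

theorem chi_of_mem {X : Set ℕ} {n : ℕ} (h : n ∈ X) : chi X n = 1 := by simp [chi, h]

theorem chi_of_notMem {X : Set ℕ} {n : ℕ} (h : n ∉ X) : chi X n = 0 := by simp [chi, h]

theorem chi_eq_zero_iff {X : Set ℕ} {n : ℕ} : chi X n = 0 ↔ n ∉ X := by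
  by_cases h : n ∈ X
  · simp [chi_of_mem h, h]
  · simp [chi_of_notMem h, h]

/-- Column `i` of the function codes `X i`, hidden behind the offset `2 * a i`. -/
noncomputable def codeFn (X : ℕ → Set ℕ) (a : ℕ → ℕ) (m : ℕ) : ℕ :=
  2 * a m.unpair.1 + chi (X m.unpair.1) m.unpair.2

/-- The graph of `codeFn` on the first `k` columns. -/
def graphBelow (X : ℕ → Set ℕ) (a : ℕ → ℕ) (k : ℕ) : Set ℕ :=
  {y | y.unpair.1.unpair.1 < k ∧ codeFn X a y.unpair.1 = y.unpair.2}

theorem graphBelow_congr (X : ℕ → Set ℕ) {a b : ℕ → ℕ} {k : ℕ} (h : ∀ i < k, a i = b i) :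
    graphBelow X a k = graphBelow X b k := by
  ext y
  simp only [graphBelow, Set.mem_ofPred_eq, codeFn]
  constructor
  · rintro ⟨h1, h2⟩
    exact ⟨h1, by rw [← h _ h1]; exact h2⟩
  · rintro ⟨h1, h2⟩
    exact ⟨h1, by rw [h _ h1]; exact h2⟩

theorem p1 : Primrec (fun q : ℕ => q.unpair.1) := Primrec.fst.comp Primrec.unpair
theorem p2 : Primrec (fun q : ℕ => q.unpair.2) := Primrec.snd.comp Primrec.unpair

/-- The join of two sets. -/
def join (X Y : Set ℕ) : Set ℕ := {n : ℕ | (n % 2 = 0 ∧ n / 2 ∈ X) ∨ (n % 2 = 1 ∧ n / 2 ∈ Y)}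

theorem chi_join_left (X Y : Set ℕ) (n : ℕ) : chi (join X Y) (2 * n) = chi X n := by
  have h : 2 * n ∈ join X Y ↔ n ∈ X := by
    simp [join]
  by_cases hn : n ∈ X
  · rw [chi_of_mem hn, chi_of_mem (h.2 hn)]
  · rw [chi_of_notMem hn, chi_of_notMem (fun h' => hn (h.1 h'))]

theorem chi_join_right (X Y : Set ℕ) (n : ℕ) : chi (join X Y) (2 * n + 1) = chi Y n := by
  have h : 2 * n + 1 ∈ join X Y ↔ n ∈ Y := by
    have h1 : (2 * n + 1) % 2 = 1 := by omega
    have h2 : (2 * n + 1) / 2 = n := by omega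
    simp [join, h1, h2]
  by_cases hn : n ∈ Y
  · rw [chi_of_mem hn, chi_of_mem (h.2 hn)]
  · rw [chi_of_notMem hn, chi_of_notMem (fun h' => hn (h.1 h'))]

theorem recIn_graphBelow_succ (X : ℕ → Set ℕ) (a : ℕ → ℕ) (k : ℕ) :
    RecIn (chi (join (graphBelow X a k) (X k))) (chi (graphBelow X a (k + 1))) := by
  have hH : Primrec (fun q : ℕ =>
      if q.unpair.1.unpair.1.unpair.1 = k then
        (if 2 * a k + q.unpair.2.unpair.2 = q.unpair.1.unpair.2 then 1 else 0)
      else q.unpair.2.unpair.1) :=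
    Primrec.ite (Primrec.eq.comp (p1.comp (p1.comp p1)) (Primrec.const k))
      (Primrec.ite
        (Primrec.eq.comp (Primrec.nat_add.comp (Primrec.const (2 * a k)) (p2.comp p2))
          (p2.comp p1))
        (Primrec.const 1) (Primrec.const 0))
      (p1.comp p2)
  have hd : Primrec (fun y : ℕ => 2 * y) := Primrec.nat_mul.comp (Primrec.const 2) Primrec.id
  have hd' : Primrec (fun y : ℕ => 2 * y.unpair.1.unpair.2 + 1) :=
    Primrec.succ.comp (hd.comp (p2.comp p1))
  refine ((RecIn.of_primrec hH).comp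
    (RecIn.pair (RecIn.of_primrec Primrec.id)
      (RecIn.pair (RecIn.oracle.comp (RecIn.of_primrec hd))
        (RecIn.oracle.comp (RecIn.of_primrec hd'))))).of_eq (fun y => ?_)
  simp only [id, Nat.unpair_pair, chi_join_left, chi_join_right]
  by_cases hk : y.unpair.1.unpair.1 = k
  · rw [if_pos hk]
    by_cases h2 : 2 * a k + chi (X k) y.unpair.1.unpair.2 = y.unpair.2
    · rw [if_pos h2, chi_of_mem]
      exact ⟨by omega, by simpa [codeFn, hk] using h2⟩
    · rw [if_neg h2, chi_of_notMem]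
      rintro ⟨_, h3⟩
      exact h2 (by simpa [codeFn, hk] using h3)
  · rw [if_neg hk]
    have : y ∈ graphBelow X a k ↔ y ∈ graphBelow X a (k + 1) := by
      simp only [graphBelow, Set.mem_ofPred_eq]
      constructor
      · rintro ⟨h1, h2⟩
        exact ⟨by omega, h2⟩
      · rintro ⟨h1, h2⟩
        exact ⟨by omega, h2⟩
    by_cases hy : y ∈ graphBelow X a k
    · rw [chi_of_mem hy, chi_of_mem (this.1 hy)]
    · rw [chi_of_notMem hy, chi_of_notMem (fun h => hy (this.2 h))]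

/-- Two axioms of the operator `c`, bounded by `w`, avoid `W` and give opposite answers. -/
def Conflict (c : Code) (W : Set ℕ) (w : ℕ) : Prop :=
  ∃ n u v : ℕ, u ≤ w ∧ v ≤ w ∧ (c.eval (Nat.pair (2 * n) u)).Dom ∧
    (c.eval (Nat.pair (2 * n + 1) v)).Dom ∧
    (∀ y, u.testBit y = true → y ∉ W) ∧ (∀ y, v.testBit y = true → y ∉ W)

/-- Without conflicts, a set all of whose answers are given by axioms avoiding `W` is recursive
in `W`. -/
theorem recIn_of_no_conflict (c : Code) (W Z : Set ℕ) (hno : ¬ ∃ w, Conflict c W w)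
    (h0 : ∀ n ∈ Z, ∃ u, (c.eval (Nat.pair (2 * n) u)).Dom ∧ ∀ y, u.testBit y = true → y ∉ W)
    (h1 : ∀ n ∉ Z,
      ∃ u, (c.eval (Nat.pair (2 * n + 1) u)).Dom ∧ ∀ y, u.testBit y = true → y ∉ W) :
    RecIn (chi W) (chi Z) := by
  -- a search position is `s = pair (pair b u) t`
  have hev : Primrec (fun p : ℕ =>
      (Code.evaln p.unpair.2.unpair.2 c
        (Nat.pair (2 * p.unpair.1 + p.unpair.2.unpair.1.unpair.1 % 2)
          p.unpair.2.unpair.1.unpair.2)).isSome) := by
    have hA : Primrec (fun p : ℕ => ((p.unpair.2.unpair.2, c),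
        Nat.pair (2 * p.unpair.1 + p.unpair.2.unpair.1.unpair.1 % 2)
          p.unpair.2.unpair.1.unpair.2)) :=
      Primrec.pair (Primrec.pair (p2.comp p2) (Primrec.const c))
        (Primrec₂.natPair.comp
          (Primrec.nat_add.comp (Primrec.nat_mul.comp (Primrec.const 2) p1)
            (Primrec.nat_mod.comp (p1.comp (p1.comp p2)) (Primrec.const 2)))
          (p2.comp (p1.comp p2)))
    exact Primrec.option_isSome.comp (Code.primrec_evaln.comp hA)
  have hH : Primrec (fun q : ℕ =>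
      cond ((fun p : ℕ => (Code.evaln p.unpair.2.unpair.2 c
        (Nat.pair (2 * p.unpair.1 + p.unpair.2.unpair.1.unpair.1 % 2)
          p.unpair.2.unpair.1.unpair.2)).isSome) q.unpair.1) q.unpair.2 1) :=
    Primrec.cond (hev.comp p1) p2 (Primrec.const 1)
  have hQ : RecIn (chi W) (fun p : ℕ =>
      cond (Code.evaln p.unpair.2.unpair.2 c
        (Nat.pair (2 * p.unpair.1 + p.unpair.2.unpair.1.unpair.1 % 2)
          p.unpair.2.unpair.1.unpair.2)).isSome
        (hits (chi W) p.unpair.2.unpair.1.unpair.2 p.unpair.2.unpair.1.unpair.2) 1) := by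
    refine ((RecIn.of_primrec hH).comp
      (RecIn.pair (RecIn.of_primrec Primrec.id)
        ((recIn_hits (chi W)).comp (RecIn.of_primrec (p2.comp (p1.comp p2)))))).of_eq
      (fun p => ?_)
    simp only [id, Nat.unpair_pair]
  have hex : ∀ n : ℕ, ∃ s : ℕ, (fun p : ℕ =>
      cond (Code.evaln p.unpair.2.unpair.2 c
        (Nat.pair (2 * p.unpair.1 + p.unpair.2.unpair.1.unpair.1 % 2)
          p.unpair.2.unpair.1.unpair.2)).isSome
        (hits (chi W) p.unpair.2.unpair.1.unpair.2 p.unpair.2.unpair.1.unpair.2) 1)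
        (Nat.pair n s) = 0 := by
    intro n
    have key : ∀ b u : ℕ, b % 2 = b → (c.eval (Nat.pair (2 * n + b) u)).Dom →
        (∀ y, u.testBit y = true → y ∉ W) → ∃ s : ℕ, (fun p : ℕ =>
        cond (Code.evaln p.unpair.2.unpair.2 c
          (Nat.pair (2 * p.unpair.1 + p.unpair.2.unpair.1.unpair.1 % 2)
            p.unpair.2.unpair.1.unpair.2)).isSome
          (hits (chi W) p.unpair.2.unpair.1.unpair.2 p.unpair.2.unpair.1.unpair.2) 1)
          (Nat.pair n s) = 0 := by
      intro b u hb hd hu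
      obtain ⟨x, hx⟩ := Part.dom_iff_mem.1 hd
      obtain ⟨t, ht⟩ := Code.evaln_complete.1 hx
      refine ⟨Nat.pair (Nat.pair b u) t, ?_⟩
      simp only [Nat.unpair_pair, hb]
      have : (Code.evaln t c (Nat.pair (2 * n + b) u)).isSome = true :=
        Option.isSome_iff_exists.2 ⟨x, ht⟩
      rw [this]
      simp only [cond_true]
      exact (hits_self_eq_zero_iff _ _).2 (fun y hy => chi_eq_zero_iff.2 (hu y hy))
    by_cases hn : n ∈ Z
    · obtain ⟨u, hd, hu⟩ := h0 n hn
      exact key 0 u rfl hd hu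
    · obtain ⟨u, hd, hu⟩ := h1 n hn
      exact key 1 u rfl hd hu
  have hS := RecIn.search hQ hex
  have hout : Primrec (fun s : ℕ => 1 - s.unpair.1.unpair.1 % 2) :=
    Primrec.nat_sub.comp (Primrec.const 1)
      (Primrec.nat_mod.comp (p1.comp p1) (Primrec.const 2))
  refine ((RecIn.of_primrec hout).comp hS).of_eq (fun n => ?_)
  have hspec := Nat.find_spec (hex n)
  generalize Nat.find (hex n) = s at hspec ⊢
  simp only [Nat.unpair_pair] at hspec
  cases hsome : (Code.evaln s.unpair.2 c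
      (Nat.pair (2 * n + s.unpair.1.unpair.1 % 2) s.unpair.1.unpair.2)).isSome with
  | false => rw [hsome] at hspec; simp at hspec
  | true =>
    rw [hsome] at hspec
    simp only [cond_true] at hspec
    have hu : ∀ y, s.unpair.1.unpair.2.testBit y = true → y ∉ W := fun y hy =>
      chi_eq_zero_iff.1 ((hits_self_eq_zero_iff _ _).1 hspec y hy)
    obtain ⟨x, hx⟩ := Option.isSome_iff_exists.1 hsome
    have hd : (c.eval (Nat.pair (2 * n + s.unpair.1.unpair.1 % 2) s.unpair.1.unpair.2)).Dom :=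
      Part.dom_iff_mem.2 ⟨x, Code.evaln_sound hx⟩
    rcases Nat.mod_two_eq_zero_or_one s.unpair.1.unpair.1 with hb | hb
    · rw [hb] at hd ⊢
      by_cases hn : n ∈ Z
      · rw [chi_of_mem hn]
      · exfalso
        obtain ⟨v, hdv, hv⟩ := h1 n hn
        exact hno ⟨_, n, _, v, le_max_left _ v, le_max_right _ _, hd, hdv, hu, hv⟩
    · rw [hb] at hd ⊢
      by_cases hn : n ∈ Z
      · exfalso
        obtain ⟨v, hdv, hv⟩ := h0 n hn
        exact hno ⟨_, n, v, _, le_max_left v _, le_max_right _ _, hdv, hd, hv, hu⟩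
      · rw [chi_of_notMem hn]

/-- Stage `e` approximation of the generic offsets. -/
def approx (w : ℕ → (ℕ → ℕ) → ℕ) : ℕ → ℕ → ℕ
  | 0 => fun _ => 0
  | e + 1 => fun i => if i < e then approx w e i else approx w e i + w e (approx w e)

theorem approx_mono (w : ℕ → (ℕ → ℕ) → ℕ) (i : ℕ) : Monotone (fun e => approx w e i) := by
  refine monotone_nat_of_le_succ (fun e => ?_)
  simp only [approx]
  split_ifs <;> omega

theorem approx_stable (w : ℕ → (ℕ → ℕ) → ℕ) {i e : ℕ} (h : i < e) :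
    approx w e i = approx w (i + 1) i := by
  induction e, h using Nat.le_induction with
  | base => rfl
  | succ e he ih =>
    have : i < e := he
    rw [← ih]
    simp only [approx, if_pos this]

theorem exists_generic (X : ℕ → Set ℕ) :
    ∃ a : ℕ → ℕ, ∀ e : ℕ, (∃ w, Conflict (Denumerable.ofNat Code e) (graphBelow X a e) w) →
      ∃ w, Conflict (Denumerable.ofNat Code e) (graphBelow X a e) w ∧ ∀ i, e ≤ i → w ≤ a i := by
  classical
  let w : ℕ → (ℕ → ℕ) → ℕ := fun e b =>
    if h : ∃ w, Conflict (Denumerable.ofNat Code e) (graphBelow X b e) w then h.choose else 0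
  refine ⟨fun i => approx w (i + 1) i, fun e he => ?_⟩
  have hg : graphBelow X (fun i => approx w (i + 1) i) e = graphBelow X (approx w e) e :=
    graphBelow_congr X (fun i hi => (approx_stable w hi).symm)
  rw [hg] at he ⊢
  refine ⟨he.choose, he.choose_spec, fun i hi => ?_⟩
  have h1 : approx w (e + 1) i ≤ approx w (i + 1) i := approx_mono w i (by omega)
  have h2 : approx w (e + 1) i = approx w e i + w e (approx w e) := by
    simp only [approx, if_neg (not_lt.2 hi)]
  have h3 : w e (approx w e) = he.choose := by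
    simp only [w, dif_pos he]
  show he.choose ≤ approx w (i + 1) i
  omega

theorem forward (X : ℕ → Set ℕ) (a : ℕ → ℕ) (i : ℕ) :
    ∃ g : ℕ →. ℕ, Partrec g ∧
      ∀ x : ℕ, ((x % 2 = 0 ∧ x / 2 ∈ X i) ∨ (x % 2 = 1 ∧ x / 2 ∉ X i)) ↔
        ∃ u : ℕ, (g (Nat.pair x u)).Dom ∧
          ∀ y : ℕ, u.testBit y = true → codeFn X a (Nat.unpair y).1 ≠ (Nat.unpair y).2 := by
  have hh : Primrec (fun p : ℕ =>
      if p.unpair.2 = 2 ^ Nat.pair (Nat.pair i (p.unpair.1 / 2)) (2 * a i + p.unpair.1 % 2)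
      then some 0 else (none : Option ℕ)) :=
    Primrec.ite
      (Primrec.eq.comp p2 (primrec_two_pow.comp (Primrec₂.natPair.comp
        (Primrec₂.natPair.comp (Primrec.const i) (Primrec.nat_div.comp p1 (Primrec.const 2)))
        (Primrec.nat_add.comp (Primrec.const (2 * a i))
          (Primrec.nat_mod.comp p1 (Primrec.const 2))))))
      (Primrec.const (some 0)) (Primrec.const none)
  refine ⟨_, hh.to_comp.ofOption, fun x => ?_⟩
  have hval : ((x % 2 = 0 ∧ x / 2 ∈ X i) ∨ (x % 2 = 1 ∧ x / 2 ∉ X i)) ↔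
      chi (X i) (x / 2) ≠ x % 2 := by
    by_cases hx : x / 2 ∈ X i
    · rw [chi_of_mem hx]; simp only [hx]; simp; omega
    · rw [chi_of_notMem hx]; simp only [hx]; simp; omega
  rw [hval]
  constructor
  · intro h
    refine ⟨2 ^ Nat.pair (Nat.pair i (x / 2)) (2 * a i + x % 2), by simp, fun y hy => ?_⟩
    rw [Nat.testBit_two_pow] at hy
    have hy' : Nat.pair (Nat.pair i (x / 2)) (2 * a i + x % 2) = y := by simpa using hy
    subst hy'
    simp only [Nat.unpair_pair, codeFn]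
    omega
  · rintro ⟨u, hd, hu⟩
    simp only [Nat.unpair_pair] at hd
    by_cases h : u = 2 ^ Nat.pair (Nat.pair i (x / 2)) (2 * a i + x % 2)
    · have := hu (Nat.pair (Nat.pair i (x / 2)) (2 * a i + x % 2))
        (by rw [h]; exact Nat.testBit_two_pow_self)
      simp only [Nat.unpair_pair, codeFn] at this
      omega
    · rw [if_neg h] at hd
      exact absurd hd (by simp)

theorem main (I : Set (Set ℕ)) (hc : I.Countable) (hne : I.Nonempty)
    (hdown : ∀ X Y : Set ℕ, X ∈ I → RecIn (chi X) (chi Y) → Y ∈ I)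
    (hjoin : ∀ X Y : Set ℕ, X ∈ I → Y ∈ I → join X Y ∈ I) :
    ∃ f : ℕ → ℕ, ∀ X : Set ℕ, X ∈ I ↔
      ∃ g : ℕ →. ℕ, Partrec g ∧
        ∀ x : ℕ, ((x % 2 = 0 ∧ x / 2 ∈ X) ∨ (x % 2 = 1 ∧ x / 2 ∉ X)) ↔
          ∃ u : ℕ, (g (Nat.pair x u)).Dom ∧
            ∀ y : ℕ, u.testBit y = true → f (Nat.unpair y).1 ≠ (Nat.unpair y).2 := by
  obtain ⟨X, rfl⟩ := hc.exists_eq_range hne
  obtain ⟨a, ha⟩ := exists_generic X
  have hmem : ∀ k, graphBelow X a k ∈ Set.range X := by
    intro k
    induction k with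
    | zero =>
      refine hdown (X 0) _ ⟨0, rfl⟩ ((RecIn.of_primrec (Primrec.const 0)).of_eq (fun n => ?_))
      rw [chi_of_notMem]
      rintro ⟨h, _⟩
      omega
    | succ k ih =>
      exact hdown _ _ (hjoin _ _ ih ⟨k, rfl⟩) (recIn_graphBelow_succ X a k)
  refine ⟨codeFn X a, fun Z => ⟨?_, ?_⟩⟩
  · rintro ⟨i, rfl⟩
    exact forward X a i
  · rintro ⟨g, hg, hZ⟩
    obtain ⟨c, rfl⟩ := Code.exists_code.1 (Partrec.nat_iff.1 hg)
    obtain ⟨e, rfl⟩ : ∃ e, Denumerable.ofNat Code e = c :=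
      ⟨Encodable.encode c, Denumerable.ofNat_encode c⟩
    have he0 : ∀ n : ℕ, (2 * n) % 2 = 0 ∧ (2 * n) / 2 = n := fun n => by omega
    have he1 : ∀ n : ℕ, (2 * n + 1) % 2 = 1 ∧ (2 * n + 1) / 2 = n := fun n => by omega
    refine hdown _ _ (hmem e) (recIn_of_no_conflict (Denumerable.ofNat Code e) _ Z ?_ ?_ ?_)
    · intro hcon
      obtain ⟨w, ⟨n, u, v, huw, hvw, hdu, hdv, hu, hv⟩, hw⟩ := ha e hcon
      have key : ∀ u : ℕ, u ≤ w → (∀ y, u.testBit y = true → y ∉ graphBelow X a e) →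
          ∀ y : ℕ, u.testBit y = true → codeFn X a (Nat.unpair y).1 ≠ (Nat.unpair y).2 := by
        intro u huw hu y hy heq
        by_cases hcol : y.unpair.1.unpair.1 < e
        · exact hu y hy ⟨hcol, heq⟩
        · have h1 := hw _ (not_lt.1 hcol)
          have h2 := lt_of_testBit hy
          have h3 := Nat.unpair_right_le y
          simp only [codeFn] at heq
          omega
      have hA := (hZ (2 * n)).2 ⟨u, hdu, key u huw hu⟩
      have hB := (hZ (2 * n + 1)).2 ⟨v, hdv, key v hvw hv⟩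
      rw [(he0 n).1, (he0 n).2] at hA
      rw [(he1 n).1, (he1 n).2] at hB
      simp at hA hB
      exact hB hA
    · intro n hn
      obtain ⟨u, hd, hu⟩ := (hZ (2 * n)).1 (Or.inl ⟨(he0 n).1, by rw [(he0 n).2]; exact hn⟩)
      exact ⟨u, hd, fun y hy hW => hu y hy hW.2⟩
    · intro n hn
      obtain ⟨u, hd, hu⟩ :=
        (hZ (2 * n + 1)).1 (Or.inr ⟨(he1 n).1, by rw [(he1 n).2]; exact hn⟩)
      exact ⟨u, hd, fun y hy hW => hu y hy hW.2⟩

end Pool.Agent.MP_40fdec_lc
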