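import Mathlib

set_option autoImplicit false

namespace Pool.Agent.MP_40fdec_lc

/-- The total function `f` is recursive in the total oracle `o`. -/
def RecIn (o f : ℕ → ℕ) : Prop :=
  Nat.RecursiveIn {fun n => Part.some (o n)} (fun n => Part.some (f n))

namespace RecIn

variable {o f g : ℕ → ℕ}

theorem of_eq (hf : RecIn o f) (h : ∀ n, f n = g n) : RecIn o g :=
  (funext h : f = g) ▸ hf

theorem oracle : RecIn o o :=
  Nat.RecursiveIn.oracle _ rfl

theorem of_primrec (hf : Primrec f) : RecIn o f :=
  Nat.Primrec.recursiveIn (Primrec.nat_iff.1 hf)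

theorem comp (hf : RecIn o f) (hg : RecIn o g) : RecIn o (fun n => f (g n)) :=
  (Nat.RecursiveIn.comp hf hg).of_eq (fun n => by simp)

theorem pair (hf : RecIn o f) (hg : RecIn o g) : RecIn o (fun n => Nat.pair (f n) (g n)) :=
  (Nat.RecursiveIn.pair hf hg).of_eq (fun n => by simp [Seq.seq])

theorem prec (hf : RecIn o f) (hg : RecIn o g) :
    RecIn o (fun p => Nat.rec (motive := fun _ => ℕ) (f p.unpair.1)
      (fun y ih => g (Nat.pair p.unpair.1 (Nat.pair y ih))) p.unpair.2) := by
  refine (Nat.RecursiveIn.prec hf hg).of_eq (fun p => ?_)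
  simp only
  induction p.unpair.2 with
  | zero => rfl
  | succ n ih =>
    simp only at ih ⊢
    rw [ih]
    simp

/-- Unbounded search: some function picking a zero of `f (pair a ·)` is recursive in `o`. -/
theorem search (hf : RecIn o f) (h : ∀ a, ∃ n, f (Nat.pair a n) = 0) :
    RecIn o (fun a => Nat.find (h a)) := by
  refine (Nat.RecursiveIn.rfind hf).of_eq (fun a => ?_)
  rw [Part.eq_some_iff, Nat.mem_rfind]
  refine ⟨?_, fun {m} hm => ?_⟩
  · simpa using Nat.find_spec (h a)
  · simpa using Nat.find_min (h a) hm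

theorem turingReducible (hf : RecIn o f) :
    TuringReducible (fun n => Part.some (f n)) (fun n => Part.some (o n)) :=
  RecursiveIn.iff_nat.2 hf

end RecIn

theorem primrec_two_pow : Primrec (fun n : ℕ => 2 ^ n) := by
  have h : Primrec₂ (fun a b : ℕ => a ^ b) := Primrec₂.unpaired'.1 Nat.Primrec.pow
  exact h.comp (Primrec.const 2) Primrec.id

/-- `hits o u m` counts the `y < m` whose bit is set in `u`, weighted by `o y`. -/
def hits (o : ℕ → ℕ) (u : ℕ) : ℕ → ℕ
  | 0 => 0
  | m + 1 => hits o u m + (u / 2 ^ m % 2) * o m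

theorem hits_eq_zero_iff (o : ℕ → ℕ) (u m : ℕ) :
    hits o u m = 0 ↔ ∀ y < m, u.testBit y = true → o y = 0 := by
  induction m with
  | zero => simp [hits]
  | succ m ih =>
    simp only [hits, Nat.add_eq_zero_iff, ih, Nat.mul_eq_zero]
    have hb : u.testBit m = true ↔ u / 2 ^ m % 2 = 1 := by
      rw [Nat.testBit_eq_decide_div_mod_eq]; simp
    constructor
    · rintro ⟨h1, h2⟩ y hy hy2
      rcases Nat.lt_succ_iff_lt_or_eq.1 hy with h | h
      · exact h1 y h hy2
      · subst h
        rcases h2 with h2 | h2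
        · rw [hb.1 hy2] at h2; omega
        · exact h2
    · intro h
      refine ⟨fun y hy => h y (by omega), ?_⟩
      by_cases h2 : u / 2 ^ m % 2 = 0
      · exact Or.inl h2
      · exact Or.inr (h m (by omega) (hb.2 (by omega)))

theorem lt_of_testBit {u y : ℕ} (h : u.testBit y = true) : y < u :=
  lt_of_lt_of_le (Nat.lt_two_pow_self) (Nat.ge_two_pow_of_testBit h)

theorem hits_self_eq_zero_iff (o : ℕ → ℕ) (u : ℕ) :
    hits o u u = 0 ↔ ∀ y, u.testBit y = true → o y = 0 := by
  rw [hits_eq_zero_iff]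
  exact ⟨fun h y hy => h y (lt_of_testBit hy) hy, fun h y _ hy => h y hy⟩

theorem recIn_hits (o : ℕ → ℕ) : RecIn o (fun u => hits o u u) := by
  have hH : Primrec (fun q : ℕ =>
      q.unpair.1.unpair.2.unpair.2 +
        (q.unpair.1.unpair.1 / 2 ^ q.unpair.1.unpair.2.unpair.1 % 2) * q.unpair.2) := by
    have h1 : Primrec (fun q : ℕ => q.unpair.1) := Primrec.fst.comp Primrec.unpair
    have h2 : Primrec (fun q : ℕ => q.unpair.2) := Primrec.snd.comp Primrec.unpair
    exact Primrec.nat_add.comp (h2.comp (h2.comp h1))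
      (Primrec.nat_mul.comp
        (Primrec.nat_mod.comp
          (Primrec.nat_div.comp (h1.comp h1) (primrec_two_pow.comp (h1.comp (h2.comp h1))))
          (Primrec.const 2)) h2)
  have h1 : Primrec (fun q : ℕ => q.unpair.1) := Primrec.fst.comp Primrec.unpair
  have h2 : Primrec (fun q : ℕ => q.unpair.2) := Primrec.snd.comp Primrec.unpair
  have hg : RecIn o (fun r : ℕ =>
      r.unpair.2.unpair.2 + (r.unpair.1 / 2 ^ r.unpair.2.unpair.1 % 2) * o r.unpair.2.unpair.1) := by
    refine ((RecIn.of_primrec hH).comp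
      (RecIn.pair (RecIn.of_primrec Primrec.id)
        (RecIn.oracle.comp (RecIn.of_primrec (h1.comp h2))))).of_eq (fun r => ?_)
    simp
  have h0 : RecIn o (fun _ => 0) := RecIn.of_primrec (Primrec.const 0)
  have hp := (RecIn.prec h0 hg).comp
    (RecIn.pair (RecIn.of_primrec Primrec.id) (RecIn.of_primrec Primrec.id))
  refine hp.of_eq (fun u => ?_)
  simp only [id, Nat.unpair_pair]
  have : ∀ m, Nat.rec (motive := fun _ => ℕ) 0
      (fun y ih => ih + u / 2 ^ y % 2 * o y) m = hits o u m := by
    intro m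
    induction m with
    | zero => rfl
    | succ m ih => simp [hits, ih]
  exact this u

end Pool.Agent.MP_40fdec_lc
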